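import Pool.Agent.Helper58_MT.Deg

/-! PAPER_MT100, 3.6 (ZE2): the second zero estimate, at a point `xi`. -/

set_option linter.unusedSectionVars false

namespace Pool.Agent.Helper58_MT

open Polynomial Matrix

variable {ι υ : Type*} [Fintype ι] [Fintype υ]

/-- the span of the first `m` forms -/
noncomputable def sp (q : ℚ[X]) (B : Matrix ι ι ℚ[X]) (N : Matrix υ υ ℚ) (P : Matrix υ ι ℚ[X])
    (m : ℕ) : Submodule ℚ[X] (Matrix υ ι ℚ[X]) := Submodule.span ℚ[X] (pk q B N P '' {k | k < m})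

theorem sp_mono (q : ℚ[X]) (B : Matrix ι ι ℚ[X]) (N : Matrix υ υ ℚ) (P : Matrix υ ι ℚ[X])
    {m m' : ℕ} (h : m ≤ m') : sp q B N P m ≤ sp q B N P m' := by
  refine Submodule.span_mono (Set.image_mono fun k hk => ?_)
  exact lt_of_lt_of_le hk h

theorem pk_mem_sp (q : ℚ[X]) (B : Matrix ι ι ℚ[X]) (N : Matrix υ υ ℚ) (P : Matrix υ ι ℚ[X])
    {k m : ℕ} (h : k < m) : pk q B N P k ∈ sp q B N P m :=
  Submodule.subset_span ⟨k, h, rfl⟩

theorem stp_mem_sp (q : ℚ[X]) (B : Matrix ι ι ℚ[X]) (N : Matrix υ υ ℚ) (P : Matrix υ ι ℚ[X])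
    (m : ℕ) (Q : Matrix υ ι ℚ[X]) (hQ : Q ∈ sp q B N P m) :
    stp q B N 0 Q ∈ sp q B N P (m + 1) := by
  unfold sp at hQ
  induction hQ using Submodule.span_induction with
  | mem x hx =>
      obtain ⟨k, hk, rfl⟩ := hx
      have hk' : k < m := hk
      rw [stp_index q B N k 0, ← pk_succ]
      exact Submodule.add_mem _ (Submodule.smul_mem _ _ (pk_mem_sp q B N P (by omega)))
        (Submodule.smul_mem _ _ (pk_mem_sp q B N P (by omega)))
  | zero => rw [stp_zero]; exact Submodule.zero_mem _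
  | add x y _ _ hx hy => rw [stp_add]; exact Submodule.add_mem _ hx hy
  | smul c x hx' hx =>
      rw [stp_smul]
      exact Submodule.add_mem _ (Submodule.smul_mem _ _ hx)
        (Submodule.smul_mem _ _ (sp_mono q B N P (Nat.le_succ m) hx'))

/-- differentiating the identities `f E in span` -/
theorem derive_full (q : ℚ[X]) (B : Matrix ι ι ℚ[X]) (N : Matrix υ υ ℚ) (P : Matrix υ ι ℚ[X])
    (m : ℕ) (f : ℚ[X]) (hf : ∀ E : Matrix υ ι ℚ[X], f • E ∈ sp q B N P m) (E : Matrix υ ι ℚ[X]) :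
    (X * q * derivative f) • E ∈ sp q B N P (m + 1) := by
  have h1 := stp_mem_sp q B N P m _ (hf E)
  rw [stp_smul] at h1
  have h2 := sp_mono q B N P (Nat.le_succ m) (hf (stp q B N 0 E))
  have h3 := Submodule.sub_mem _ h1 h2
  rwa [add_sub_cancel_left] at h3

/-- lowering the order at `xi` -/
theorem lower (q : ℚ[X]) (B : Matrix ι ι ℚ[X]) (N : Matrix υ υ ℚ) (P : Matrix υ ι ℚ[X])
    (ξ : ℚ) (hξ : ξ ≠ 0) (hq : q.eval ξ ≠ 0) (a : ℕ) : ∀ (m : ℕ) (g : ℚ[X]), g.eval ξ ≠ 0 →
    (∀ E : Matrix υ ι ℚ[X], ((X - C ξ) ^ a * g) • E ∈ sp q B N P m) →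
    ∃ g' : ℚ[X], g'.eval ξ ≠ 0 ∧ ∀ E : Matrix υ ι ℚ[X], g' • E ∈ sp q B N P (m + a) := by
  induction a with
  | zero => intro m g hg h; exact ⟨g, hg, by simpa using h⟩
  | succ a ih =>
      intro m g hg h
      have h1 := derive_full q B N P m _ h
      have e : X * q * derivative ((X - C ξ) ^ (a + 1) * g)
          = (X - C ξ) ^ a * (X * q * (((a : ℚ[X]) + 1) * g + (X - C ξ) * derivative g)) := by
        rw [derivative_mul, derivative_X_sub_C_pow, Nat.add_sub_cancel]
        push_cast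
        simp only [map_add, map_natCast, map_one]
        ring
      rw [e] at h1
      obtain ⟨g', hg', h'⟩ := ih (m + 1) _ (by
        simp only [eval_mul, eval_add, eval_X, eval_natCast, eval_one, eval_sub, eval_C, sub_self,
          zero_mul, add_zero]
        refine mul_ne_zero (mul_ne_zero hξ hq) (mul_ne_zero ?_ hg)
        positivity) h1
      refine ⟨g', hg', fun E => ?_⟩
      have := h' E
      rwa [show m + 1 + a = m + (a + 1) by ring] at this

/-- `det` times everything is in the span -/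
theorem det_full {n : ℕ} (e : Fin n ≃ υ × ι) (q : ℚ[X]) (B : Matrix ι ι ℚ[X])
    (N : Matrix υ υ ℚ) (P : Matrix υ ι ℚ[X]) (E : Matrix υ ι ℚ[X]) :
    (bp e q B N P).det • E ∈ sp q B N P n := by
  classical
  obtain ⟨z, hz⟩ : ∃ z : Fin n → ℚ[X], (bp e q B N P).det • (fun l => E (e l).1 (e l).2)
      = z ᵥ* bp e q B N P := by
    refine ⟨(fun l => E (e l).1 (e l).2) ᵥ* (bp e q B N P).adjugate, ?_⟩
    rw [Matrix.vecMul_vecMul, Matrix.adjugate_mul, Matrix.vecMul_smul, Matrix.vecMul_one]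
  have h2 : (bp e q B N P).det • E = ∑ k : Fin n, z k • pk q B N P k := by
    ext x y : 1
    have h3 := congrFun hz (e.symm (x, y))
    rw [Pi.smul_apply] at h3
    simp only [Equiv.apply_symm_apply] at h3
    rw [Matrix.smul_apply, h3, Matrix.sum_apply]
    simp only [Matrix.vecMul, dotProduct, bp, Matrix.of_apply, Equiv.apply_symm_apply,
      Matrix.smul_apply, smul_eq_mul]
  rw [h2]
  exact Submodule.sum_mem _ fun k _ => Submodule.smul_mem _ _ (pk_mem_sp q B N P k.2)

/-- ZE2 -/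
theorem ze2 (q : ℚ[X]) (B : Matrix ι ι ℚ[X]) (N : Matrix υ υ ℚ) (P : Matrix υ ι ℚ[X]) {n : ℕ}
    (e : Fin n ≃ υ × ι) (c M T τ : ℕ) (hc : (X * q).natDegree ≤ c)
    (hB : ∀ i j, (B i j).natDegree ≤ c) (hM : ∀ i j, (P i j).natDegree ≤ M) (ξ : ℚ) (hξ : ξ ≠ 0)
    (hq : q.eval ξ ≠ 0) (hdet : (bp e q B N P).det ≠ 0) (hT : X ^ T ∣ (bp e q B N P).det)
    (hbig : n * M + c * n ^ 2 ≤ T + τ) (u : Matrix ι υ ℚ)
    (hu : ∀ k < n + τ, trace ((pk q B N P k).map (eval ξ) * u) = 0) : u = 0 := by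
  classical
  obtain ⟨g, hg, hgd⟩ := Polynomial.exists_eq_pow_rootMultiplicity_mul_and_not_dvd
    (bp e q B N P).det hdet ξ
  set a := rootMultiplicity ξ (bp e q B N P).det with ha
  have hg0 : g.eval ξ ≠ 0 := fun h => hgd (dvd_iff_isRoot.2 h)
  -- a ≤ τ
  have haτ : a ≤ τ := by
    have hco : IsCoprime (X ^ T : ℚ[X]) ((X - C ξ) ^ a) := by
      refine IsCoprime.pow ?_
      have := Polynomial.isCoprime_X_sub_C_of_isUnit_sub (R := ℚ) (a := 0) (b := ξ)
        (by rw [zero_sub, isUnit_iff_ne_zero]; exact neg_ne_zero.2 hξ)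
      simpa using this
    have h1 : X ^ T * (X - C ξ) ^ a ∣ (bp e q B N P).det :=
      hco.mul_dvd hT (by rw [hg]; exact dvd_mul_right _ _)
    have h2 := (natDegree_le_of_dvd h1 hdet).trans (bp_natDegree e q B N P c M hc hB hM)
    rw [Monic.natDegree_mul (monic_X_pow _) ((monic_X_sub_C _).pow _), natDegree_X_pow,
      natDegree_pow, natDegree_X_sub_C, mul_one] at h2
    omega
  obtain ⟨g', hg', hfull⟩ := lower q B N P ξ hξ hq a n g hg0 (fun E => by
    rw [← hg]; exact det_full e q B N P E)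
  have hzero : ∀ Q ∈ sp q B N P (n + a), trace (Q.map (eval ξ) * u) = 0 := by
    intro Q hQ
    unfold sp at hQ
    induction hQ using Submodule.span_induction with
    | mem x hx =>
        obtain ⟨k, hk, rfl⟩ := hx
        have hk' : k < n + a := hk
        exact hu k (by omega)
    | zero =>
        have : (0 : Matrix υ ι ℚ[X]).map (eval ξ) = 0 := by ext x y; simp
        rw [this, Matrix.zero_mul, trace_zero]
    | add x y _ _ hx hy =>
        have : (x + y).map (eval ξ) = x.map (eval ξ) + y.map (eval ξ) := by ext x y; simp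
        rw [this, Matrix.add_mul, trace_add, hx, hy, add_zero]
    | smul c x _ hx =>
        have : (c • x).map (eval ξ) = c.eval ξ • x.map (eval ξ) := by ext x y; simp
        rw [this, Matrix.smul_mul, trace_smul, hx, smul_zero]
  ext i j
  have h1 := hzero _ (hfull (Matrix.single j i 1))
  have h2 : (g' • Matrix.single j i (1 : ℚ[X])).map (eval ξ) = g'.eval ξ • Matrix.single j i 1 := by
    ext x y
    rw [Matrix.map_apply, Matrix.smul_apply, Matrix.smul_apply, Matrix.single_apply,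
      Matrix.single_apply]
    split_ifs <;> simp
  rw [h2, Matrix.smul_mul, trace_smul, Matrix.trace_single_mul, smul_eq_mul, one_smul] at h1
  rw [Matrix.zero_apply]
  exact (mul_eq_zero.1 h1).resolve_left hg'

end Pool.Agent.Helper58_MT
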