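import Pool.Agent.Helper58_MT.Ze1b
import Pool.Agent.Helper58_MT.Ze2
import Pool.Agent.MT100.Stmts

/-! The statements `RecStmt`, `ZeaStmt`, `ZebStmt` of MT100. -/

set_option linter.unusedSectionVars false

namespace Pool.Agent.Helper58_MT

open Polynomial Matrix Pool.Agent.MT100

theorem Pk_eq {s d : Type*} [Fintype s] [Fintype d] (q : ℚ[X]) (B : Matrix d d ℚ[X])
    (N : Matrix s s ℚ) (P : Matrix s d ℚ[X]) (k : ℕ) : Pk q B N P k = pk q B N P k := by
  induction k with
  | zero => rfl
  | succ k ih =>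
      rw [Pk, pk, ih, stp]
      ext i j : 1
      simp only [Matrix.smul_apply, Matrix.sub_apply, Matrix.add_apply, Polynomial.smul_eq_C_mul,
        smul_eq_mul, map_natCast]
      ring

theorem hs_der (k : ℕ) (f : PowerSeries ℚ) :
    (k.factorial : PowerSeries ℚ) * hs k f = (PowerSeries.derivative ℚ)^[k] f := by
  have key : ∀ (k : ℕ) (i : ℕ), PowerSeries.coeff i ((PowerSeries.derivative ℚ)^[k] f)
      = ((i + k).descFactorial k : ℚ) * PowerSeries.coeff (i + k) f := by
    intro k
    induction k with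
    | zero => intro i; simp
    | succ k ih =>
        intro i
        rw [Function.iterate_succ_apply', PowerSeries.coeff_derivative, ih]
        have : i + 1 + k = i + (k + 1) := by ring
        rw [this, Nat.descFactorial_succ, show i + (k + 1) - k = i + 1 by omega]
        push_cast
        ring
  ext i
  have h : (k.factorial : PowerSeries ℚ) = PowerSeries.C (k.factorial : ℚ) := by simp
  rw [h, PowerSeries.coeff_C_mul, hs, PowerSeries.coeff_mk, key, ← mul_assoc,
    Nat.descFactorial_eq_factorial_mul_choose]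
  push_cast
  ring

theorem recStmt : RecStmt := by
  refine ⟨?_, ?_⟩
  · intro s d _ _ _ _ q B N P φ h hφ hh k
    set φ' : ℚ[X] →ₐ[ℚ] PowerSeries ℚ := φ.toRatAlgHom with hφ'
    have hC : (N.map (algebraMap ℚ (PowerSeries ℚ))) = N.map (fun x => PowerSeries.C x) := by
      ext i j : 1
      rw [Matrix.map_apply, Matrix.map_apply, PowerSeries.C_eq_algebraMap]
    have h1 := pk_trace φ' (PowerSeries.derivative ℚ) hφ q B N P h (by rw [hC]; exact hh) k
    rw [← hs_der] at h1
    have h2 : (k.factorial : PowerSeries ℚ) ≠ 0 := (isUnit_factorial k).ne_zero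
    rw [Pk_eq]
    refine mul_left_cancel₀ h2 ?_
    refine h1.trans ?_
    change φ (X * q) ^ k * ((k.factorial : PowerSeries ℚ) * hs k (trace (P.map φ * h))) = _
    ring
  · intro s d _ _ q B N P c M hq hB hP k i j
    rw [Pk_eq]
    exact pk_natDegree q B N P c M hq hB hP k i j

/-- the big matrix -/
theorem bigP_eq {d : Type} [Fintype d] (q : ℚ[X]) (B : Matrix d d ℚ[X]) (N : Matrix d d ℚ)
    (P : Matrix d d ℚ[X]) : bigP q B N P = bp (Fintype.equivFin (d × d)).symm q B N P := by
  ext k l : 2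
  rw [bigP, bp, Matrix.of_apply, Matrix.of_apply, Pk_eq]

theorem trace_eq {d : Type} [Fintype d] (P : Matrix d d ℚ[X]) (H : Matrix d d (PowerSeries ℚ)) :
    trace (P.map co * H) = ∑ i, ∑ j, ((P j i : ℚ[X]) : PowerSeries ℚ) * H i j := by
  rw [Finset.sum_comm]
  rfl

theorem gsys_ode {d : Type} [Fintype d] [DecidableEq d] {H K : Matrix d d (PowerSeries ℚ)}
    {N : Matrix d d ℤ} {q : ℤ[X]} {B : Matrix d d ℤ[X]} (h : GSys H K N q B) :
    co (X * zq q) • H.map (PowerSeries.derivative ℚ)
      = (B.map zq).map co * H - co (zq q) • (H * pc (N.map (fun x => (x : ℚ)))) := by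
  have h1 := h.ode
  have h2 : co (X * zq q) = zp q * PowerSeries.X := by
    rw [map_mul, co_X, mul_comm]
    rfl
  have h3 : pc (N.map (fun x => (x : ℚ))) = N.map (fun x => (x : PowerSeries ℚ)) := by
    ext i j : 1
    simp only [Matrix.map_apply, map_intCast]
  rw [h2, h3]
  exact h1

theorem gsys_nil {d : Type} [Fintype d] [DecidableEq d] {N : Matrix d d ℤ} (h : IsNilpotent N) :
    IsNilpotent (N.map (fun x => (x : ℚ))) := by
  obtain ⟨e, he⟩ := h
  refine ⟨e, ?_⟩
  have h1 : N.map (fun x => (x : ℚ)) = (Int.castRingHom ℚ).mapMatrix N := rfl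
  rw [h1, ← map_pow, he, map_zero]

theorem zeaStmt : ZeaStmt := by
  intro d _ _ H K N q B hG hF
  have hq0 : zq q ≠ 0 := by
    intro h
    exact hG.q0 ((Polynomial.map_eq_zero_iff (RingHom.injective_int (Int.castRingHom ℚ))).1 h)
  obtain ⟨c, hc, hB⟩ : ∃ c : ℕ, (X * zq q).natDegree ≤ c ∧
      ∀ i j, ((B.map zq) i j).natDegree ≤ c := by
    refine ⟨(X * zq q).natDegree + ∑ i, ∑ j, ((B.map zq) i j).natDegree, by omega, ?_⟩
    intro i j
    have h1 : ((B.map zq) i j).natDegree ≤ ∑ j, ((B.map zq) i j).natDegree :=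
      Finset.single_le_sum (f := fun j => ((B.map zq) i j).natDegree) (fun _ _ => Nat.zero_le _)
        (Finset.mem_univ j)
    have h2 : ∑ j, ((B.map zq) i j).natDegree ≤ ∑ i, ∑ j, ((B.map zq) i j).natDegree :=
      Finset.single_le_sum (f := fun i => ∑ j, ((B.map zq) i j).natDegree)
        (fun _ _ => Nat.zero_le _) (Finset.mem_univ i)
    omega
  have free : ∀ p : Matrix d d ℚ[X], trace (p.map co * H) = 0 → p = 0 := by
    intro p hp
    rw [trace_eq] at hp
    exact hF p hp
  refine ⟨c * Fintype.card d ^ 4, ?_⟩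
  intro M P hM hP0 hT
  rw [bigP_eq]
  refine bp_det_ne_zero _ _ _ _ _ fun v hv => ?_
  refine ze1 (zq q) hq0 (B.map zq) (N.map (fun x => (x : ℚ))) (gsys_nil hG.nil) H K hG.inv
    hG.one (gsys_ode hG) free c M hc hB P hM hP0
    (Fintype.card d * (Fintype.card d - 1) * M + c * Fintype.card d ^ 4 + 1) ?_ (by omega) _
    (by rw [Fintype.card_prod]) v hv
  rw [trace_eq, PowerSeries.X_pow_dvd_iff]
  intro i hi
  exact hT i (by omega)

theorem zebStmt : ZebStmt := by
  intro d _ _ H K N q B hG c hc hB M T τ P ξ hM hT hdet hξ hq hbig u hu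
  rw [bigP_eq] at hdet
  rcases isEmpty_or_nonempty d with hd | ⟨⟨i0⟩⟩
  · ext i; exact hd.elim i
  have hXT : X ^ T ∣ (bp (Fintype.equivFin (d × d)).symm (zq q) (B.map zq)
      (N.map (fun x => (x : ℚ))) P).det := by
    refine bp_order _ (zq q) (B.map zq) (N.map (fun x => (x : ℚ))) P H (gsys_ode hG) T ?_ i0 i0
      (by rw [hG.one, if_pos rfl]; exact one_ne_zero)
    rw [trace_eq, PowerSeries.X_pow_dvd_iff]
    exact hT
  refine ze2 (zq q) (B.map zq) (N.map (fun x => (x : ℚ))) P (Fintype.equivFin (d × d)).symm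
    c M T τ hc hB hM ξ hξ hq hdet hXT hbig u fun k hk => ?_
  rw [← hu k hk, trace, Finset.sum_comm]
  refine Finset.sum_congr rfl fun j _ => ?_
  rw [diag_apply, Matrix.mul_apply]
  refine Finset.sum_congr rfl fun i _ => ?_
  rw [Matrix.map_apply, Pk_eq]

end Pool.Agent.Helper58_MT
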