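import Pool.Agent.Helper58_MT.Nab

/-! Degrees of the forms `P_k`, the determinant of the first ones, and its order at `0`. -/

set_option linter.unusedSectionVars false

namespace Pool.Agent.Helper58_MT

open Polynomial Matrix

variable {ι υ : Type*} [Fintype ι] [Fintype υ]

theorem natDegree_le_of_X_mul {q : ℚ[X]} {c : ℕ} (h : (X * q).natDegree ≤ c) :
    q.natDegree ≤ c := by
  rcases eq_or_ne q 0 with rfl | hq
  · simp
  · rw [natDegree_X_mul hq] at h
    omega

/-- degrees of the forms -/
theorem pk_natDegree (q : ℚ[X]) (B : Matrix ι ι ℚ[X]) (N : Matrix υ υ ℚ) (P : Matrix υ ι ℚ[X])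
    (c M : ℕ) (hq : (X * q).natDegree ≤ c) (hB : ∀ i j, (B i j).natDegree ≤ c)
    (hP : ∀ i j, (P i j).natDegree ≤ M) (k : ℕ) (i : υ) (j : ι) :
    (pk q B N P k i j).natDegree ≤ M + c * k := by
  induction k generalizing i j with
  | zero => simpa [pk] using hP i j
  | succ k ih =>
      have hder : (derivative (X * q)).natDegree ≤ c :=
        (natDegree_derivative_le _).trans (by omega)
      rw [pk, Matrix.smul_apply, smul_eq_mul]
      refine (natDegree_C_mul_le _ _).trans ?_
      unfold stp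
      rw [Matrix.sub_apply, Matrix.sub_apply, Matrix.add_apply]
      refine (natDegree_sub_le _ _).trans (max_le ((natDegree_sub_le _ _).trans (max_le
        ((natDegree_add_le _ _).trans (max_le ?_ ?_)) ?_)) ?_)
      · rw [Matrix.smul_apply, Matrix.map_apply, smul_eq_mul]
        refine natDegree_mul_le.trans ?_
        have h1 := natDegree_derivative_le (pk q B N P k i j)
        have h2 := ih i j
        rw [Nat.mul_succ]
        omega
      · rw [Matrix.mul_apply]
        refine natDegree_sum_le_of_forall_le _ _ fun x _ => ?_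
        refine natDegree_mul_le.trans ?_
        have h1 := hB x j
        have h2 := ih i x
        rw [Nat.mul_succ]
        omega
      · rw [Matrix.smul_apply, smul_eq_mul, Matrix.mul_apply]
        refine natDegree_mul_le.trans ?_
        have h3 : (∑ x, N.map C i x * pk q B N P k x j).natDegree ≤ M + c * k := by
          refine natDegree_sum_le_of_forall_le _ _ fun x _ => ?_
          rw [Matrix.map_apply]
          exact (natDegree_C_mul_le _ _).trans (ih x j)
        have h4 := natDegree_le_of_X_mul hq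
        rw [Nat.mul_succ]
        omega
      · rw [Matrix.smul_apply, smul_eq_mul]
        refine natDegree_mul_le.trans ?_
        have h5 : ((k : ℚ[X]) * derivative (X * q)).natDegree ≤ c := by
          rw [← C_eq_natCast]
          exact (natDegree_C_mul_le _ _).trans hder
        have h2 := ih i j
        rw [Nat.mul_succ]
        omega

/-- the square matrix of the entries of the first `n` forms -/
noncomputable def bp {n : ℕ} (e : Fin n ≃ υ × ι) (q : ℚ[X]) (B : Matrix ι ι ℚ[X])
    (N : Matrix υ υ ℚ) (P : Matrix υ ι ℚ[X]) : Matrix (Fin n) (Fin n) ℚ[X] :=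
  Matrix.of fun k l => pk q B N P k (e l).1 (e l).2

theorem bp_natDegree {n : ℕ} (e : Fin n ≃ υ × ι) (q : ℚ[X]) (B : Matrix ι ι ℚ[X])
    (N : Matrix υ υ ℚ) (P : Matrix υ ι ℚ[X]) (c M : ℕ) (hq : (X * q).natDegree ≤ c)
    (hB : ∀ i j, (B i j).natDegree ≤ c) (hP : ∀ i j, (P i j).natDegree ≤ M) :
    (bp e q B N P).det.natDegree ≤ n * M + c * n ^ 2 := by
  rw [Matrix.det_apply]
  refine natDegree_sum_le_of_forall_le _ _ fun σ _ => ?_
  have h1 : (∏ i, bp e q B N P (σ i) i).natDegree ≤ n * M + c * n ^ 2 := by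
    refine (natDegree_prod_le _ _).trans ?_
    have h2 : ∀ i ∈ (Finset.univ : Finset (Fin n)), (bp e q B N P (σ i) i).natDegree
        ≤ M + c * n := by
      intro i _
      refine (pk_natDegree q B N P c M hq hB hP _ _ _).trans ?_
      have := (σ i).2
      gcongr
    refine (Finset.sum_le_card_nsmul _ _ _ h2).trans ?_
    simp only [Finset.card_univ, Fintype.card_fin, smul_eq_mul]
    apply le_of_eq
    ring
  rcases Int.units_eq_one_or (Equiv.Perm.sign σ) with h | h
  · rw [h, one_smul]; exact h1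
  · rw [h, Units.neg_smul, one_smul, natDegree_neg]; exact h1

/-- independence in terms of the determinant -/
theorem bp_det_ne_zero {n : ℕ} (e : Fin n ≃ υ × ι) (q : ℚ[X]) (B : Matrix ι ι ℚ[X])
    (N : Matrix υ υ ℚ) (P : Matrix υ ι ℚ[X])
    (h : ∀ v : ℕ → ℚ[X], ∑ k ∈ Finset.range n, v k • pk q B N P k = 0 → ∀ k < n, v k = 0) :
    (bp e q B N P).det ≠ 0 := by
  classical
  intro hdet
  obtain ⟨v, hv0, hv⟩ := Matrix.exists_vecMul_eq_zero_iff.2 hdet
  apply hv0
  have h1 := h (fun k => if hk : k < n then v ⟨k, hk⟩ else 0) ?_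
  · funext k
    have := h1 k k.2
    simpa using this
  · ext x y : 1
    rw [Finset.sum_range]
    have h2 := congrFun hv (e.symm (x, y))
    simp only [Matrix.vecMul, dotProduct, bp, Matrix.of_apply, Equiv.apply_symm_apply,
      Pi.zero_apply] at h2
    rw [Matrix.sum_apply]
    simpa using h2

/-- Cramer -/
theorem bp_cramer {S : Type*} [CommRing S] (φ : ℚ[X] →+* S) {n : ℕ} (e : Fin n ≃ υ × ι)
    (q : ℚ[X]) (B : Matrix ι ι ℚ[X]) (N : Matrix υ υ ℚ) (P : Matrix υ ι ℚ[X])
    (h : Matrix ι υ S) (y : S) (hy : ∀ k < n, y ∣ trace ((pk q B N P k).map φ * h)) (i : ι)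
    (j : υ) : y ∣ φ (bp e q B N P).det * h i j := by
  classical
  set A : Matrix (Fin n) (Fin n) S := (bp e q B N P).map φ with hA
  set v : Fin n → S := fun l => h (e l).2 (e l).1 with hv
  have h1 : φ (bp e q B N P).det = A.det := by
    rw [hA, RingHom.map_det]
    rfl
  have h2 : ∀ k : Fin n, y ∣ (A *ᵥ v) k := by
    intro k
    have h3 : (A *ᵥ v) k = trace ((pk q B N P k).map φ * h) := by
      simp only [Matrix.mulVec, dotProduct, hA, hv, Matrix.map_apply, bp, Matrix.of_apply, trace,
        diag_apply, Matrix.mul_apply]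
      rw [← Fintype.sum_prod_type (f := fun p : υ × ι => φ (pk q B N P k p.1 p.2) * h p.2 p.1),
        ← Equiv.sum_comp e]
    rw [h3]
    exact hy k k.2
  have h4 : A.det • v = A.adjugate *ᵥ (A *ᵥ v) := by
    rw [Matrix.mulVec_mulVec, Matrix.adjugate_mul, Matrix.smul_mulVec, Matrix.one_mulVec]
  have h5 := congrFun h4 (e.symm (j, i))
  rw [Pi.smul_apply, smul_eq_mul, hv] at h5
  simp only [Equiv.apply_symm_apply] at h5
  rw [h1, h5]
  simp only [Matrix.mulVec, dotProduct]
  exact Finset.dvd_sum fun k _ => Dvd.dvd.mul_left (h2 k) _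

/-- derivatives lower the order by one -/
theorem X_pow_dvd_iter (T k : ℕ) (F : PowerSeries ℚ) (h : PowerSeries.X ^ T ∣ F) :
    PowerSeries.X ^ T ∣ PowerSeries.X ^ k * (PowerSeries.derivative ℚ)^[k] F := by
  have h1 : PowerSeries.X ^ (T - k) ∣ (PowerSeries.derivative ℚ)^[k] F := by
    induction k with
    | zero => simpa using h
    | succ k ih =>
        rw [Function.iterate_succ_apply']
        obtain ⟨G, hG⟩ := ih
        rw [hG, Derivation.leibniz, Derivation.leibniz_pow]
        simp only [smul_eq_mul, nsmul_eq_mul]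
        refine dvd_add (Dvd.dvd.mul_right (pow_dvd_pow _ (by omega)) _) ?_
        refine Dvd.dvd.mul_left (Dvd.dvd.mul_left (Dvd.dvd.mul_right
          (pow_dvd_pow _ (by omega)) _) _) _
  calc (PowerSeries.X : PowerSeries ℚ) ^ T ∣ PowerSeries.X ^ (k + (T - k)) :=
        pow_dvd_pow _ (by omega)
    _ = PowerSeries.X ^ k * PowerSeries.X ^ (T - k) := pow_add _ _ _
    _ ∣ _ := mul_dvd_mul_left _ h1

theorem isUnit_factorial (k : ℕ) : IsUnit ((k.factorial : PowerSeries ℚ)) := by
  have : (k.factorial : PowerSeries ℚ) = algebraMap ℚ (PowerSeries ℚ) (k.factorial : ℚ) := by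
    rw [map_natCast]
  rw [this]
  exact (IsUnit.mk0 (k.factorial : ℚ) (by exact_mod_cast k.factorial_ne_zero)).map _

/-- the order of the determinant at `0` -/
theorem bp_order {n : ℕ} (e : Fin n ≃ υ × ι) (q : ℚ[X]) (B : Matrix ι ι ℚ[X])
    (N : Matrix υ υ ℚ) (P : Matrix υ ι ℚ[X]) (h : Matrix ι υ (PowerSeries ℚ))
    (hh : co (X * q) • h.map (PowerSeries.derivative ℚ) = B.map co * h - co q • (h * pc N))
    (T : ℕ) (hT : PowerSeries.X ^ T ∣ trace (P.map co * h)) (i : ι) (j : υ)
    (hij : PowerSeries.constantCoeff (h i j) ≠ 0) : X ^ T ∣ (bp e q B N P).det := by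
  have h1 : ∀ k < n, (PowerSeries.X : PowerSeries ℚ) ^ T ∣ trace ((pk q B N P k).map co * h) := by
    intro k _
    have h2 := pk_trace co (PowerSeries.derivative ℚ) co_der q B N P h hh k
    have h3 : PowerSeries.X ^ T ∣ (k.factorial : PowerSeries ℚ) *
        trace ((pk q B N P k).map co * h) := by
      rw [h2, map_mul, mul_pow, co_X, mul_right_comm]
      exact Dvd.dvd.mul_right (X_pow_dvd_iter T k _ hT) _
    exact (isUnit_factorial k).dvd_mul_left.1 h3
  have h4 := bp_cramer (co : ℚ[X] →+* PowerSeries ℚ) e q B N P h _ h1 i j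
  have h5 : IsUnit (h i j) := by
    rw [PowerSeries.isUnit_iff_constantCoeff]
    exact IsUnit.mk0 _ hij
  have h6 : (PowerSeries.X : PowerSeries ℚ) ^ T ∣ ((bp e q B N P).det : PowerSeries ℚ) :=
    h5.dvd_mul_right.1 h4
  rw [PowerSeries.X_pow_dvd_iff] at h6
  rw [Polynomial.X_pow_dvd_iff]
  intro d hd
  have := h6 d hd
  rwa [Polynomial.coeff_coe] at this

end Pool.Agent.Helper58_MT
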