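import Pool.Agent.Helper58_MT.Rec

/-! The operator `nabla = theta + a` on matrices of power series, `a(Y) = Y N - N1 Y`, and the
Chinese remainder argument replacing the Wronskian in 3.5 of PAPER_MT100. -/

set_option linter.unusedSectionVars false

namespace Pool.Agent.Helper58_MT

open Polynomial Matrix

variable {ι υ : Type*} [Fintype ι] [Fintype υ]

/-- polynomials as power series -/
noncomputable def co : ℚ[X] →ₐ[ℚ] PowerSeries ℚ :=
  (Polynomial.coeToPowerSeries.ringHom (R := ℚ)).toRatAlgHom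

theorem co_apply (p : ℚ[X]) : co p = (p : PowerSeries ℚ) := rfl

theorem co_injective : Function.Injective co := fun p q h => by
  rw [co_apply, co_apply] at h
  exact Polynomial.coe_injective ℚ h

theorem co_eq_zero {p : ℚ[X]} : co p = 0 ↔ p = 0 := by
  rw [← map_zero co]
  exact ⟨fun h => co_injective h, fun h => by rw [h]⟩

theorem co_X : co X = (PowerSeries.X : PowerSeries ℚ) := by
  rw [co_apply]; exact Polynomial.coe_X

theorem co_der (p : ℚ[X]) : PowerSeries.derivative ℚ (co p) = co (derivative p) := by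
  rw [co_apply, co_apply]; exact PowerSeries.derivative_coe p

/-- coefficients of a matrix of power series -/
noncomputable def cf (j : ℕ) : Matrix υ ι (PowerSeries ℚ) →ₗ[ℚ] Matrix υ ι ℚ where
  toFun Y := Y.map (PowerSeries.coeff j)
  map_add' Y Z := by ext; simp
  map_smul' c Y := by ext; simp

theorem cf_apply (j : ℕ) (Y : Matrix υ ι (PowerSeries ℚ)) (x : υ) (y : ι) :
    cf j Y x y = PowerSeries.coeff j (Y x y) := rfl

/-- `a(Z) = Z N - N1 Z` -/
def ad (N : Matrix ι ι ℚ) (N1 : Matrix υ υ ℚ) : Matrix υ ι ℚ →ₗ[ℚ] Matrix υ ι ℚ where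
  toFun Z := Z * N - N1 * Z
  map_add' Y Z := by simp only [Matrix.add_mul, Matrix.mul_add]; abel
  map_smul' c Y := by simp [smul_sub]

theorem ad_apply (N : Matrix ι ι ℚ) (N1 : Matrix υ υ ℚ) (Z : Matrix υ ι ℚ) :
    ad N N1 Z = Z * N - N1 * Z := rfl

/-- constant matrices as matrices of power series -/
noncomputable abbrev pc (N : Matrix υ ι ℚ) : Matrix υ ι (PowerSeries ℚ) := N.map (algebraMap ℚ _)

/-- `nabla Y = theta Y + Y N - N1 Y` -/
noncomputable def nab (N : Matrix ι ι ℚ) (N1 : Matrix υ υ ℚ) :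
    Matrix υ ι (PowerSeries ℚ) →ₗ[ℚ] Matrix υ ι (PowerSeries ℚ) where
  toFun Y := (PowerSeries.X : PowerSeries ℚ) • Y.map (PowerSeries.derivative ℚ)
    + (Y * pc N - pc N1 * Y)
  map_add' Y Z := by
    have h : (Y + Z).map (PowerSeries.derivative ℚ)
        = Y.map (PowerSeries.derivative ℚ) + Z.map (PowerSeries.derivative ℚ) := by ext; simp
    rw [h, smul_add, Matrix.add_mul, Matrix.mul_add]
    abel
  map_smul' c Y := by
    have h : (c • Y).map (PowerSeries.derivative ℚ) = c • Y.map (PowerSeries.derivative ℚ) := by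
      ext; simp
    rw [h, Matrix.smul_mul, Matrix.mul_smul, ← smul_sub, smul_comm, ← smul_add]
    rfl

theorem nab_apply (N : Matrix ι ι ℚ) (N1 : Matrix υ υ ℚ) (Y : Matrix υ ι (PowerSeries ℚ)) :
    nab N N1 Y = (PowerSeries.X : PowerSeries ℚ) • Y.map (PowerSeries.derivative ℚ)
    + (Y * pc N - pc N1 * Y) := rfl

theorem cf_mul_pc {κ : Type*} (j : ℕ) (Y : Matrix υ ι (PowerSeries ℚ)) (N : Matrix ι κ ℚ) :
    cf j (Y * pc N) = cf j Y * N := by
  ext x y
  simp only [cf_apply, Matrix.mul_apply, Matrix.map_apply, map_sum]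
  refine Finset.sum_congr rfl fun i _ => ?_
  rw [mul_comm, ← PowerSeries.C_eq_algebraMap, PowerSeries.coeff_C_mul, mul_comm]

theorem cf_pc_mul (j : ℕ) (Y : Matrix υ ι (PowerSeries ℚ)) (N : Matrix υ υ ℚ) :
    cf j (pc N * Y) = N * cf j Y := by
  ext x y
  simp only [cf_apply, Matrix.mul_apply, Matrix.map_apply, map_sum]
  refine Finset.sum_congr rfl fun i _ => ?_
  rw [← PowerSeries.C_eq_algebraMap, PowerSeries.coeff_C_mul]

theorem cf_nab (N : Matrix ι ι ℚ) (N1 : Matrix υ υ ℚ) (j : ℕ) (Y : Matrix υ ι (PowerSeries ℚ)) :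
    cf j (nab N N1 Y) = (algebraMap ℚ (Module.End ℚ (Matrix υ ι ℚ)) j + ad N N1) (cf j Y) := by
  rw [nab_apply, map_add, map_sub, cf_mul_pc, cf_pc_mul, LinearMap.add_apply, ad_apply]
  congr 1
  ext x y
  rw [cf_apply, Matrix.smul_apply, Matrix.map_apply, smul_eq_mul,
    Module.algebraMap_end_apply, Matrix.smul_apply, cf_apply, smul_eq_mul]
  rcases j with _ | j
  · simp
  · rw [PowerSeries.coeff_succ_X_mul, PowerSeries.coeff_derivative]
    push_cast
    ring

/-- intertwining for polynomials in the operators -/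
theorem cf_aeval (N : Matrix ι ι ℚ) (N1 : Matrix υ υ ℚ) (j : ℕ) (f : ℚ[X])
    (Y : Matrix υ ι (PowerSeries ℚ)) :
    cf j (aeval (nab N N1) f Y)
      = aeval (algebraMap ℚ (Module.End ℚ (Matrix υ ι ℚ)) j + ad N N1) f (cf j Y) := by
  induction f using Polynomial.induction_on' with
  | add p q hp hq => simp only [map_add, LinearMap.add_apply, hp, hq]
  | monomial n c =>
      rw [aeval_monomial, aeval_monomial, Module.End.mul_apply, Module.End.mul_apply,
        Module.algebraMap_end_apply, Module.algebraMap_end_apply, map_smul]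
      congr 1
      induction n with
      | zero => simp
      | succ n ih =>
          rw [pow_succ', pow_succ', Module.End.mul_apply, Module.End.mul_apply, cf_nab, ih]

/-- the binomial polynomials `binom(x, m)` -/
noncomputable def bet : ℕ → ℚ[X]
  | 0 => 1
  | m + 1 => C (((m : ℚ) + 1)⁻¹) * ((X - (m : ℚ[X])) * bet m)

theorem bet_succ (m : ℕ) : ((m : ℚ[X]) + 1) * bet (m + 1) = (X - (m : ℚ[X])) * bet m := by
  have h : ((m : ℚ[X]) + 1) = C ((m : ℚ) + 1) := by simp
  rw [bet, h, ← mul_assoc, ← C_mul, mul_inv_cancel₀ (by positivity), C_1, one_mul]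

/-- the binomial polynomials span -/
theorem bet_span (S : Submodule ℚ ℚ[X]) (h : ∀ m, bet m ∈ S) (f : ℚ[X]) : f ∈ S := by
  have key : ∀ n m : ℕ, X ^ n * bet m ∈ S := by
    intro n
    induction n with
    | zero => intro m; simpa using h m
    | succ n ih =>
        intro m
        have e : X ^ (n + 1) * bet m = ((m : ℚ) + 1) • (X ^ n * bet (m + 1))
            + (m : ℚ) • (X ^ n * bet m) := by
          have h1 := bet_succ m
          rw [smul_eq_C_mul, smul_eq_C_mul]
          simp only [map_add, map_natCast, map_one]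
          linear_combination (-(X ^ n)) * h1
        rw [e]
        exact S.add_mem (S.smul_mem _ (ih _)) (S.smul_mem _ (ih _))
  induction f using Polynomial.induction_on' with
  | add p q hp hq => exact S.add_mem hp hq
  | monomial n c =>
      rw [← C_mul_X_pow_eq_monomial, ← smul_eq_C_mul]
      have := key n 0
      rw [bet, mul_one] at this
      exact S.smul_mem _ this

/-- the recursion in terms of `nabla` -/
theorem stp_nab (q : ℚ[X]) (B : Matrix ι ι ℚ[X]) (N : Matrix ι ι ℚ) (N1 : Matrix υ υ ℚ)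
    (H : Matrix ι ι (PowerSeries ℚ))
    (hH : co (X * q) • H.map (PowerSeries.derivative ℚ) = B.map co * H - co q • (H * pc N))
    (P : Matrix υ ι ℚ[X]) (Y : Matrix υ ι (PowerSeries ℚ)) (m : ℕ)
    (hPY : P.map co * H = co q ^ m • Y) :
    (stp q B N1 m P).map co * H = co q ^ (m + 1) • (nab N N1 Y - (m : ℚ) • Y) := by
  have e1 : (stp q B N1 m P).map co = co (X * q) • (P.map co).map (PowerSeries.derivative ℚ)
      + P.map co * B.map co - co q • (pc N1 * P.map co)
      - ((m : PowerSeries ℚ) * co (derivative (X * q))) • P.map co := by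
    ext i j : 1
    have hC : ∀ r : ℚ, co (C r) = algebraMap ℚ (PowerSeries ℚ) r := fun r => by
      rw [← Polynomial.algebraMap_eq]; exact co.commutes r
    simp only [stp, Matrix.map_apply, Matrix.sub_apply, Matrix.add_apply, Matrix.smul_apply,
      Matrix.mul_apply, smul_eq_mul, map_sub, map_add, map_mul, map_sum, map_natCast, co_der, hC]
  have e2 : (P.map co * H).map (PowerSeries.derivative ℚ)
      = (P.map co).map (PowerSeries.derivative ℚ) * H
        + P.map co * H.map (PowerSeries.derivative ℚ) := by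
    ext i j : 1
    simp only [Matrix.map_apply, Matrix.mul_apply, Matrix.add_apply, map_sum, Derivation.leibniz,
      smul_eq_mul, ← Finset.sum_add_distrib]
    refine Finset.sum_congr rfl fun k _ => ?_
    ring
  have e3 : (co q ^ m • Y).map (PowerSeries.derivative ℚ)
      = co q ^ m • Y.map (PowerSeries.derivative ℚ)
        + ((m : PowerSeries ℚ) * co q ^ (m - 1) * co (derivative q)) • Y := by
    ext i j : 1
    simp only [Matrix.map_apply, Matrix.smul_apply, Matrix.add_apply, smul_eq_mul,
      Derivation.leibniz, Derivation.leibniz_pow, nsmul_eq_mul, co_der]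
    ring
  have e4 : (m : PowerSeries ℚ) * co q ^ (m - 1) * co q = m * co q ^ m := by
    rcases m with _ | m
    · simp
    · simp [pow_succ, mul_assoc]
  have e5 : co (derivative (X * q)) = co q + PowerSeries.X * co (derivative q) := by
    rw [derivative_mul, derivative_X, one_mul, map_add, map_mul, co_X]
  have e6 : co (X * q) = PowerSeries.X * co q := by rw [map_mul, co_X]
  have e7 : (stp q B N1 m P).map co * H
      = co (X * q) • (P.map co * H).map (PowerSeries.derivative ℚ)
        + co q • (P.map co * H * pc N) - co q • (pc N1 * (P.map co * H))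
        - ((m : PowerSeries ℚ) * co (derivative (X * q))) • (P.map co * H) := by
    have e9 : co (X * q) • (P.map co * H.map (PowerSeries.derivative ℚ))
        = P.map co * B.map co * H - co q • (P.map co * H * pc N) := by
      rw [← Matrix.mul_smul, hH, Matrix.mul_sub, Matrix.mul_smul, Matrix.mul_assoc,
        Matrix.mul_assoc]
    rw [e1, e2, smul_add, e9, Matrix.sub_mul, Matrix.sub_mul, Matrix.add_mul, Matrix.smul_mul,
      Matrix.smul_mul, Matrix.smul_mul, Matrix.mul_assoc (pc N1)]
    abel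
  rw [e7, hPY, e3, nab_apply, e5, e6]
  ext i j : 1
  simp only [Matrix.smul_mul, Matrix.mul_smul, Matrix.sub_apply, Matrix.add_apply,
    Matrix.smul_apply, smul_eq_mul, Matrix.map_apply]
  have e8 : ((m : ℚ) • Y i j : PowerSeries ℚ) = (m : PowerSeries ℚ) * Y i j := by
    rw [Algebra.smul_def, map_natCast]
  rw [e8, pow_succ]
  linear_combination (PowerSeries.X * co (derivative q) * Y i j) * e4

/-- `P_m H = q^m binom(nabla, m) (P H)` -/
theorem pk_nab (q : ℚ[X]) (B : Matrix ι ι ℚ[X]) (N : Matrix ι ι ℚ) (N1 : Matrix υ υ ℚ)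
    (H : Matrix ι ι (PowerSeries ℚ))
    (hH : co (X * q) • H.map (PowerSeries.derivative ℚ) = B.map co * H - co q • (H * pc N))
    (P : Matrix υ ι ℚ[X]) (m : ℕ) :
    (pk q B N1 P m).map co * H = co q ^ m • aeval (nab N N1) (bet m) (P.map co * H) := by
  induction m with
  | zero => simp [pk, bet]
  | succ m ih =>
      have h1 := congrArg (fun M : Matrix υ ι ℚ[X] => M.map co * H) (pk_succ q B N1 P m)
      rw [stp_nab q B N N1 H hH _ _ m ih] at h1
      have h2 : ((((m : ℚ[X]) + 1) • pk q B N1 P (m + 1)).map co)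
          = ((m : ℚ) + 1) • (pk q B N1 P (m + 1)).map co := by
        ext i j : 1
        rw [Matrix.map_apply, Matrix.smul_apply, Matrix.smul_apply, Matrix.map_apply, smul_eq_mul,
          map_mul, Algebra.smul_def]
        simp
      rw [h2, Matrix.smul_mul] at h1
      have h3 : nab N N1 (aeval (nab N N1) (bet m) (P.map co * H))
          - (m : ℚ) • aeval (nab N N1) (bet m) (P.map co * H)
          = ((m : ℚ) + 1) • aeval (nab N N1) (bet (m + 1)) (P.map co * H) := by
        have h4 := congrArg (fun f : ℚ[X] => aeval (nab N N1) f (P.map co * H)) (bet_succ m)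
        simp only [map_mul, map_add, map_sub, map_natCast, map_one, aeval_X,
          Module.End.mul_apply, LinearMap.add_apply, LinearMap.sub_apply,
          Module.End.one_apply, Module.End.natCast_apply] at h4
        rw [add_smul, one_smul, Nat.cast_smul_eq_nsmul, Nat.cast_smul_eq_nsmul, ← h4]
      rw [h3, smul_comm] at h1
      exact smul_right_injective _ (show ((m : ℚ) + 1) ≠ 0 by positivity) h1

/-- Chinese remainder polynomials -/
theorem crt (e M i j0 : ℕ) : ∃ f : ℚ[X],
    (∀ j ≤ M, j ≠ j0 → (X - C (j : ℚ)) ^ e ∣ f)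
      ∧ (X - C (j0 : ℚ)) ^ e ∣ f - (X - C (j0 : ℚ)) ^ i := by
  classical
  have hco : IsCoprime ((X - C (j0 : ℚ)) ^ e)
      (∏ j ∈ (Finset.range (M + 1)).erase j0, (X - C (j : ℚ)) ^ e) := by
    refine IsCoprime.prod_right fun j hjm => ?_
    refine IsCoprime.pow ?_
    refine Polynomial.isCoprime_X_sub_C_of_isUnit_sub ?_
    rw [isUnit_iff_ne_zero]
    intro h
    have := (Finset.mem_erase.1 hjm).1
    apply this
    have h' : (j0 : ℚ) = j := by linarith
    exact_mod_cast h'.symm
  obtain ⟨u, v, huv⟩ := hco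
  refine ⟨(X - C (j0 : ℚ)) ^ i * (v * ∏ j ∈ (Finset.range (M + 1)).erase j0,
    (X - C (j : ℚ)) ^ e), ?_, ?_⟩
  · intro j hjM hne
    refine Dvd.dvd.mul_left (Dvd.dvd.mul_left ?_ _) _
    exact Finset.dvd_prod_of_mem _ (Finset.mem_erase.2 ⟨hne, Finset.mem_range.2 (by omega)⟩)
  · refine ⟨-(X - C (j0 : ℚ)) ^ i * u, ?_⟩
    linear_combination ((X - C (j0 : ℚ)) ^ i) * huv

/-- the extraction lemma -/
theorem extract (N : Matrix ι ι ℚ) (N1 : Matrix υ υ ℚ) (hnil : IsNilpotent (ad N N1))
    (W : Matrix υ ι (PowerSeries ℚ)) (F : Matrix ι υ (PowerSeries ℚ))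
    (h : ∀ f : ℚ[X], trace (aeval (nab N N1) f W * F) = 0) (i j l : ℕ) :
    trace (((ad N N1) ^ i) (cf j W) * cf l F) = 0 := by
  obtain ⟨e, he⟩ := hnil
  obtain ⟨f, hf1, hf2⟩ := crt e (j + l) i j
  have hz : ∀ j' ≤ j + l, j' ≠ j → cf j' (aeval (nab N N1) f W) = 0 := by
    intro j' hj' hne
    obtain ⟨g, hg⟩ := hf1 j' hj' hne
    rw [cf_aeval, hg, mul_comm, map_mul, map_pow, map_sub, aeval_X, aeval_C]
    have : (algebraMap ℚ (Module.End ℚ (Matrix υ ι ℚ)) (j' : ℚ) + ad N N1
        - algebraMap ℚ (Module.End ℚ (Matrix υ ι ℚ)) (j' : ℚ)) = ad N N1 := by abel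
    rw [this, he, mul_zero, LinearMap.zero_apply]
  have hj0 : cf j (aeval (nab N N1) f W) = ((ad N N1) ^ i) (cf j W) := by
    obtain ⟨g, hg⟩ := hf2
    have hf : f = (X - C (j : ℚ)) ^ i + g * (X - C (j : ℚ)) ^ e := by
      linear_combination hg
    rw [cf_aeval, hf, map_add, map_mul, map_pow, map_pow, map_sub, aeval_X, aeval_C]
    have : (algebraMap ℚ (Module.End ℚ (Matrix υ ι ℚ)) (j : ℚ) + ad N N1
        - algebraMap ℚ (Module.End ℚ (Matrix υ ι ℚ)) (j : ℚ)) = ad N N1 := by abel
    rw [this, he, mul_zero, add_zero]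
  have h1 := congrArg (PowerSeries.coeff (j + l)) (h f)
  rw [map_zero] at h1
  have h2 : PowerSeries.coeff (j + l) (trace (aeval (nab N N1) f W * F))
      = ∑ p ∈ Finset.HasAntidiagonal.antidiagonal (j + l), trace (cf p.1 (aeval (nab N N1) f W) * cf p.2 F) := by
    simp only [trace, diag_apply, Matrix.mul_apply, map_sum, PowerSeries.coeff_mul, cf_apply]
    symm
    rw [Finset.sum_comm]
    refine Finset.sum_congr rfl fun x _ => ?_
    rw [Finset.sum_comm]
  rw [h2, Finset.sum_eq_single (j, l)] at h1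
  · rw [← hj0]; exact h1
  · rintro ⟨a, b⟩ hab hne
    have hab' := Finset.HasAntidiagonal.mem_antidiagonal.1 hab
    simp only at hab'
    have : a ≠ j := by
      rintro rfl
      apply hne
      have : b = l := by omega
      rw [this]
    simp only
    rw [hz a (by omega) this, Matrix.zero_mul, trace_zero]
  · intro hni
    exact absurd (Finset.HasAntidiagonal.mem_antidiagonal.2 (rfl : j + l = j + l)) hni

end Pool.Agent.Helper58_MT
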