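import Mathlib

/-! PAPER_MT100, 3.1 (REC): the forms `P_k`, `(k+1) P_(k+1) = q1 P_k' + P_k B - q N P_k - k q1' P_k`. -/

namespace Pool.Agent.Helper58_MT

open Polynomial Matrix

variable {ι υ : Type*} [Fintype ι] [Fintype υ]

/-- one step of the recursion -/
noncomputable def stp (q : ℚ[X]) (B : Matrix ι ι ℚ[X]) (N : Matrix υ υ ℚ) (k : ℕ)
    (P : Matrix υ ι ℚ[X]) : Matrix υ ι ℚ[X] :=
  (X * q) • P.map derivative + P * B - q • (N.map C * P) - ((k : ℚ[X]) * derivative (X * q)) • P

/-- the forms `P_k` -/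
noncomputable def pk (q : ℚ[X]) (B : Matrix ι ι ℚ[X]) (N : Matrix υ υ ℚ)
    (P : Matrix υ ι ℚ[X]) : ℕ → Matrix υ ι ℚ[X]
  | 0 => P
  | k + 1 => C (((k : ℚ) + 1)⁻¹) • stp q B N k (pk q B N P k)

theorem pk_succ (q : ℚ[X]) (B : Matrix ι ι ℚ[X]) (N : Matrix υ υ ℚ) (P : Matrix υ ι ℚ[X]) (k : ℕ) :
    ((k : ℚ[X]) + 1) • pk q B N P (k + 1) = stp q B N k (pk q B N P k) := by
  have h : ((k : ℚ[X]) + 1) = C ((k : ℚ) + 1) := by simp
  rw [h, pk, smul_smul, ← C_mul, mul_inv_cancel₀ (by positivity), C_1, one_smul]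

/-- uniqueness of the recursion -/
theorem pk_unique (q : ℚ[X]) (B : Matrix ι ι ℚ[X]) (N : Matrix υ υ ℚ) (P : Matrix υ ι ℚ[X])
    (R : ℕ → Matrix υ ι ℚ[X]) (h0 : R 0 = P)
    (h : ∀ k : ℕ, ((k : ℚ[X]) + 1) • R (k + 1) = stp q B N k (R k)) (k : ℕ) :
    R k = pk q B N P k := by
  induction k with
  | zero => rw [h0, pk]
  | succ k ih =>
      have h1 := h k
      rw [ih, ← pk_succ] at h1
      have h2 : ((k : ℚ[X]) + 1) = C ((k : ℚ) + 1) := by simp
      rw [h2] at h1
      have h3 := congrArg (fun M => C (((k : ℚ) + 1)⁻¹) • M) h1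
      simpa only [smul_smul, ← C_mul, inv_mul_cancel₀ (show ((k : ℚ) + 1) ≠ 0 by positivity),
        C_1, one_smul] using h3

/-- `stp` is additive -/
theorem stp_add (q : ℚ[X]) (B : Matrix ι ι ℚ[X]) (N : Matrix υ υ ℚ) (k : ℕ)
    (P Q : Matrix υ ι ℚ[X]) : stp q B N k (P + Q) = stp q B N k P + stp q B N k Q := by
  have h : (P + Q).map derivative = P.map derivative + Q.map derivative := by
    ext i j; simp
  simp only [stp, h, smul_add, Matrix.add_mul, Matrix.mul_add]
  abel

theorem stp_zero (q : ℚ[X]) (B : Matrix ι ι ℚ[X]) (N : Matrix υ υ ℚ) (k : ℕ) :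
    stp q B N k (0 : Matrix υ ι ℚ[X]) = 0 := by
  have h : (0 : Matrix υ ι ℚ[X]).map (derivative : ℚ[X] →ₗ[ℚ] ℚ[X]) = 0 := by
    ext i j; simp
  simp [stp, h]

theorem stp_smul (q : ℚ[X]) (B : Matrix ι ι ℚ[X]) (N : Matrix υ υ ℚ) (k : ℕ) (c : ℚ[X])
    (P : Matrix υ ι ℚ[X]) :
    stp q B N k (c • P) = c • stp q B N k P + (X * q * derivative c) • P := by
  have h : (c • P).map derivative = c • P.map derivative + (derivative c) • P := by
    ext i j; simp [derivative_mul]; ring
  simp only [stp, h, smul_add, Matrix.smul_mul, Matrix.mul_smul, smul_sub, smul_smul]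
  rw [mul_comm c (X * q), mul_comm c q, mul_comm c]
  abel

theorem stp_sum {α : Type*} (s : Finset α) (q : ℚ[X]) (B : Matrix ι ι ℚ[X]) (N : Matrix υ υ ℚ)
    (k : ℕ) (P : α → Matrix υ ι ℚ[X]) :
    stp q B N k (∑ a ∈ s, P a) = ∑ a ∈ s, stp q B N k (P a) := by
  classical
  induction s using Finset.induction_on with
  | empty => simp [stp_zero]
  | insert a s ha ih => rw [Finset.sum_insert ha, Finset.sum_insert ha, stp_add, ih]

/-- change of the index `k` -/
theorem stp_index (q : ℚ[X]) (B : Matrix ι ι ℚ[X]) (N : Matrix υ υ ℚ) (k m : ℕ)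
    (P : Matrix υ ι ℚ[X]) :
    stp q B N m P = stp q B N k P + (((k : ℚ[X]) - (m : ℚ[X])) * derivative (X * q)) • P := by
  unfold stp
  rw [sub_mul, sub_smul]
  abel

/-- Leibniz rule for the trace of a product -/
theorem trace_der {S : Type*} [CommRing S] [Algebra ℚ S] (D : Derivation ℚ S S)
    (A : Matrix υ ι S) (h : Matrix ι υ S) :
    D (trace (A * h)) = trace (A.map D * h) + trace (A * h.map D) := by
  simp only [trace, diag_apply, Matrix.mul_apply, Matrix.map_apply, map_sum, Derivation.leibniz,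
    smul_eq_mul, ← Finset.sum_add_distrib]
  refine Finset.sum_congr rfl fun i _ => Finset.sum_congr rfl fun j _ => ?_
  ring

/-- the trace identity, one step -/
theorem stp_trace {S : Type*} [CommRing S] [Algebra ℚ S] (φ : ℚ[X] →ₐ[ℚ] S)
    (D : Derivation ℚ S S) (hD : ∀ p : ℚ[X], D (φ p) = φ (derivative p))
    (q : ℚ[X]) (B : Matrix ι ι ℚ[X]) (N : Matrix υ υ ℚ) (k : ℕ) (P : Matrix υ ι ℚ[X])
    (h : Matrix ι υ S)
    (hh : φ (X * q) • h.map D = B.map φ * h - φ q • (h * N.map (algebraMap ℚ S))) :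
    trace ((stp q B N k P).map φ * h)
      = φ (X * q) * D (trace (P.map φ * h))
        - k * φ (derivative (X * q)) * trace (P.map φ * h) := by
  have e1 : (stp q B N k P).map φ = φ (X * q) • (P.map φ).map D + P.map φ * B.map φ
      - φ q • (N.map (algebraMap ℚ S) * P.map φ) - ((k : S) * φ (derivative (X * q))) • P.map φ := by
    ext i j
    have hC : ∀ r : ℚ, φ (C r) = algebraMap ℚ S r := fun r => by
      rw [← Polynomial.algebraMap_eq]; exact φ.commutes r
    simp only [stp, Matrix.map_apply, Matrix.sub_apply, Matrix.add_apply, Matrix.smul_apply,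
      Matrix.mul_apply, smul_eq_mul, map_sub, map_add, map_mul, map_sum, map_natCast, hD, hC]
  have e2 : φ (X * q) * D (trace (P.map φ * h)) = trace ((φ (X * q) • (P.map φ).map D) * h)
      + trace (P.map φ * (φ (X * q) • h.map D)) := by
    rw [trace_der, mul_add, Matrix.smul_mul, Matrix.mul_smul, trace_smul, trace_smul]
    rfl
  rw [e2, hh, e1, Matrix.sub_mul, Matrix.sub_mul, Matrix.add_mul, Matrix.mul_sub,
    trace_sub, trace_sub, trace_add, trace_sub, Matrix.mul_assoc (P.map φ) (B.map φ) h,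
    Matrix.smul_mul, Matrix.smul_mul, Matrix.smul_mul, Matrix.mul_smul, trace_smul, trace_smul,
    trace_smul, trace_smul, Matrix.mul_assoc (N.map (algebraMap ℚ S)),
    trace_mul_comm (N.map (algebraMap ℚ S)) (P.map φ * h), Matrix.mul_assoc]
  simp only [smul_eq_mul]
  ring

/-- the trace identity: for every ring `S` with a derivation `D` and a solution `h` of
`q1 D h = B h - q h N`:  `k! tr(P_k h) = q1^k D^k tr(P h)`. -/
theorem pk_trace {S : Type*} [CommRing S] [Algebra ℚ S] (φ : ℚ[X] →ₐ[ℚ] S)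
    (D : Derivation ℚ S S) (hD : ∀ p : ℚ[X], D (φ p) = φ (derivative p))
    (q : ℚ[X]) (B : Matrix ι ι ℚ[X]) (N : Matrix υ υ ℚ) (P : Matrix υ ι ℚ[X])
    (h : Matrix ι υ S)
    (hh : φ (X * q) • h.map D = B.map φ * h - φ q • (h * N.map (algebraMap ℚ S))) (k : ℕ) :
    (k.factorial : S) * trace ((pk q B N P k).map φ * h)
      = φ (X * q) ^ k * (D : S → S)^[k] (trace (P.map φ * h)) := by
  induction k with
  | zero => simp [pk]
  | succ k ih =>
      have h1 := congrArg (fun M : Matrix υ ι ℚ[X] => trace (M.map φ * h)) (pk_succ q B N P k)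
      rw [stp_trace φ D hD q B N k _ h hh] at h1
      have h2 : ((((k : ℚ[X]) + 1) • pk q B N P (k + 1)).map φ)
          = ((k : S) + 1) • (pk q B N P (k + 1)).map φ := by
        ext i j
        simp
      rw [h2, Matrix.smul_mul, trace_smul, smul_eq_mul] at h1
      set T : S := trace ((pk q B N P (k + 1)).map φ * h)
      set t : S := trace ((pk q B N P k).map φ * h)
      set y : S := φ (X * q) with hy
      have h3 : D ((k.factorial : S) * t) = (k.factorial : S) * D t := by
        rw [Derivation.leibniz]; simp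
      have h4 : D (y ^ k * (D : S → S)^[k] (trace (P.map φ * h)))
          = y ^ k * (D : S → S)^[k + 1] (trace (P.map φ * h))
            + k * y ^ (k - 1) * φ (derivative (X * q)) * (D : S → S)^[k] (trace (P.map φ * h)) := by
        rw [Derivation.leibniz, Derivation.leibniz_pow, hy, hD, Function.iterate_succ_apply']
        simp only [smul_eq_mul, nsmul_eq_mul]
        ring
      have h5 := congrArg D ih
      rw [h3, h4] at h5
      have h6 : (k : S) * y ^ (k - 1) * y = k * y ^ k := by
        rcases k with _ | k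
        · simp
        · simp [pow_succ, mul_assoc]
      rw [Nat.factorial_succ, Nat.cast_mul, Nat.cast_add, Nat.cast_one]
      calc ((k : S) + 1) * (k.factorial : S) * T = (k.factorial : S) * (((k : S) + 1) * T) := by ring
        _ = (k.factorial : S) * (y * D t - k * φ (derivative (X * q)) * t) := by rw [h1]
        _ = y * ((k.factorial : S) * D t) - k * φ (derivative (X * q)) * ((k.factorial : S) * t) := by
            ring
        _ = y ^ (k + 1) * (D : S → S)^[k + 1] (trace (P.map φ * h)) := by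
            rw [h5, ih]
            linear_combination (φ (derivative (X * q)) *
              (D : S → S)^[k] (trace (P.map φ * h))) * h6

end Pool.Agent.Helper58_MT
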