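import Pool.Agent.Helper58_MT.Nab

/-! PAPER_MT100, 3.5 (ZE1), first part: linear independence of the forms `P_k`. -/

set_option linter.unusedSectionVars false

namespace Pool.Agent.Helper58_MT

open Polynomial Matrix

variable {ι υ : Type*} [Fintype ι] [DecidableEq ι] [Fintype υ] [DecidableEq υ]

/-- once a relation with last coefficient `n0` exists, all `P_m` are in the span of the first
`n0` ones, up to a nonzero polynomial -/
theorem stable (q : ℚ[X]) (B : Matrix ι ι ℚ[X]) (N1 : Matrix υ υ ℚ) (P : Matrix υ ι ℚ[X])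
    (n0 : ℕ) (v : ℚ[X]) (hv : v ≠ 0)
    (hrel : v • pk q B N1 P n0 ∈ Submodule.span ℚ[X] (pk q B N1 P '' {k | k < n0})) (m : ℕ) :
    ∃ b : ℚ[X], b ≠ 0 ∧ b • pk q B N1 P m ∈ Submodule.span ℚ[X] (pk q B N1 P '' {k | k < n0}) := by
  set S := Submodule.span ℚ[X] (pk q B N1 P '' {k | k < n0}) with hS
  have hgen : ∀ k < n0, pk q B N1 P k ∈ S := fun k hk =>
    Submodule.subset_span ⟨k, hk, rfl⟩
  have hgen' : ∀ k < n0, v • pk q B N1 P (k + 1) ∈ S := by
    intro k hk
    rcases (Nat.lt_or_ge (k + 1) n0) with h | h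
    · exact S.smul_mem _ (hgen _ h)
    · have : k + 1 = n0 := by omega
      rw [this]; exact hrel
  have hstp : ∀ m : ℕ, ∀ x ∈ S, v • stp q B N1 m x ∈ S := by
    intro m x hx
    induction hx using Submodule.span_induction with
    | mem x hx =>
        obtain ⟨k, hk, rfl⟩ := hx
        rw [stp_index q B N1 k m, ← pk_succ, smul_add, smul_comm v]
        exact S.add_mem (S.smul_mem _ (hgen' k hk)) (S.smul_mem _ (S.smul_mem _ (hgen k hk)))
    | zero => rw [stp_zero, smul_zero]; exact S.zero_mem
    | add x y _ _ hx hy => rw [stp_add, smul_add]; exact S.add_mem hx hy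
    | smul c x hx' hx =>
        rw [stp_smul, smul_add, smul_comm v]
        exact S.add_mem (S.smul_mem _ hx) (S.smul_mem _ (S.smul_mem _ hx'))
  induction m with
  | zero =>
      rcases Nat.eq_zero_or_pos n0 with h | h
      · exact ⟨v, hv, by rw [← h] at *; exact hrel⟩
      · exact ⟨1, one_ne_zero, by rw [one_smul]; exact hgen 0 h⟩
  | succ m ih =>
      obtain ⟨b, hb, hbm⟩ := ih
      refine ⟨b * (v * b * ((m : ℚ[X]) + 1)), ?_, ?_⟩
      · refine mul_ne_zero hb (mul_ne_zero (mul_ne_zero hv hb) ?_)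
        have : ((m : ℚ[X]) + 1) = ((m + 1 : ℕ) : ℚ[X]) := by push_cast; ring
        rw [this]
        exact_mod_cast Nat.succ_ne_zero m
      · have h1 := hstp m _ hbm
        rw [stp_smul, ← pk_succ] at h1
        have h2 : (b * (v * b * ((m : ℚ[X]) + 1))) • pk q B N1 P (m + 1)
            = b • (v • (b • (((m : ℚ[X]) + 1) • pk q B N1 P (m + 1))
              + (X * q * derivative b) • pk q B N1 P m))
              - (v * (X * q * derivative b)) • (b • pk q B N1 P m) := by
          simp only [smul_add, smul_smul]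
          rw [show b * (v * (X * q * derivative b)) = v * (X * q * derivative b) * b by ring,
            add_sub_cancel_right]
          congr 1
          ring
        rw [h2]
        exact S.sub_mem (S.smul_mem _ h1) (S.smul_mem _ hbm)

/-- a nonzero matrix orthogonal to fewer than `|υ||ι|` matrices -/
theorem exists_orth (n0 : ℕ) (hn0 : n0 < Fintype.card (υ × ι)) (Q : ℕ → Matrix υ ι ℚ[X]) :
    ∃ G : Matrix ι υ ℚ[X], G ≠ 0 ∧ ∀ k < n0, trace (Q k * G) = 0 := by
  classical
  let e := Fintype.equivFin (υ × ι)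
  let M : Matrix (Fin (Fintype.card (υ × ι))) (Fin (Fintype.card (υ × ι))) ℚ[X] :=
    Matrix.of fun k c => if (k : ℕ) < n0 then Q k (e.symm c).1 (e.symm c).2 else 0
  have hdet : M.det = 0 := by
    refine Matrix.det_eq_zero_of_row_eq_zero ⟨n0, hn0⟩ fun c => ?_
    simp [M]
  obtain ⟨g, hg0, hg⟩ := Matrix.exists_mulVec_eq_zero_iff.2 hdet
  refine ⟨Matrix.of fun y x => g (e (x, y)), ?_, ?_⟩
  · intro h
    apply hg0
    funext c
    have := congrFun (congrFun h (e.symm c).2) (e.symm c).1
    simpa using this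
  · intro k hk
    have h1 := congrFun hg ⟨k, hk.trans hn0⟩
    simp only [Matrix.mulVec, dotProduct, M, Matrix.of_apply, hk, if_true, Pi.zero_apply] at h1
    rw [← h1, trace]
    simp only [diag_apply, Matrix.mul_apply, Matrix.of_apply]
    rw [← Equiv.sum_comp e, Fintype.sum_prod_type]
    refine Finset.sum_congr rfl fun x _ => Finset.sum_congr rfl fun y _ => ?_
    simp

/-- the adjoint of `ad` -/
def ad' (N : Matrix ι ι ℚ) (N1 : Matrix υ υ ℚ) (X : Matrix ι υ ℚ) : Matrix ι υ ℚ :=
  N * X - X * N1

theorem trace_ad (N : Matrix ι ι ℚ) (N1 : Matrix υ υ ℚ) (i : ℕ) (Z : Matrix υ ι ℚ)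
    (X : Matrix ι υ ℚ) :
    trace (((ad N N1) ^ i) Z * X) = trace (Z * (ad' N N1)^[i] X) := by
  induction i generalizing Z with
  | zero => simp
  | succ i ih =>
      rw [pow_succ, Module.End.mul_apply, ih, Function.iterate_succ_apply', ad_apply, ad',
        Matrix.sub_mul, Matrix.mul_sub, trace_sub, trace_sub, Matrix.mul_assoc,
        Matrix.mul_assoc N1, trace_mul_comm N1, Matrix.mul_assoc Z]

/-- ZE1, first part -/
theorem ze1a (q : ℚ[X]) (hq : q ≠ 0) (B : Matrix ι ι ℚ[X]) (N : Matrix ι ι ℚ)
    (hN : IsNilpotent N) (N1 : Matrix υ υ ℚ) (hN1 : IsNilpotent N1)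
    (H K : Matrix ι ι (PowerSeries ℚ)) (hHK : H * K = 1)
    (hH : co (X * q) • H.map (PowerSeries.derivative ℚ) = B.map co * H - co q • (H * pc N))
    (free : ∀ p : Matrix ι ι ℚ[X], trace (p.map co * H) = 0 → p = 0)
    (P : Matrix υ ι ℚ[X])
    (hP : ∀ X : Matrix ι υ ℚ, (∀ b : ℕ, (X * N1 ^ b).map C * P = 0) → X = 0)
    (n : ℕ) (hn : n ≤ Fintype.card (υ × ι)) (v : ℕ → ℚ[X])
    (hv : ∑ k ∈ Finset.range n, v k • pk q B N1 P k = 0) : ∀ k < n, v k = 0 := by
  classical
  by_contra hcon
  push Not at hcon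
  obtain ⟨k0, hk0, hvk0⟩ := hcon
  -- the last nonzero coefficient
  set T := (Finset.range n).filter (fun k => v k ≠ 0) with hT
  have hTne : T.Nonempty := ⟨k0, Finset.mem_filter.2 ⟨Finset.mem_range.2 hk0, hvk0⟩⟩
  set n0 := T.max' hTne with hn0
  have hn0T : n0 ∈ T := T.max'_mem hTne
  have hn0n : n0 < n := Finset.mem_range.1 (Finset.mem_filter.1 hn0T).1
  have hvn0 : v n0 ≠ 0 := (Finset.mem_filter.1 hn0T).2
  have hzero : ∀ k, n0 < k → k < n → v k = 0 := by
    intro k hk hkn
    by_contra h
    have := T.le_max' k (Finset.mem_filter.2 ⟨Finset.mem_range.2 hkn, h⟩)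
    omega
  have hsum : ∑ k ∈ Finset.range (n0 + 1), v k • pk q B N1 P k = 0 := by
    rw [← hv]
    refine Finset.sum_subset (fun k hk => Finset.mem_range.2
      (by have := Finset.mem_range.1 hk; omega)) fun k hk hk' => ?_
    rw [hzero k (by have := Finset.mem_range.not.1 hk'; omega) (Finset.mem_range.1 hk), zero_smul]
  have hrel : v n0 • pk q B N1 P n0 ∈ Submodule.span ℚ[X] (pk q B N1 P '' {k | k < n0}) := by
    rw [Finset.sum_range_succ] at hsum
    rw [← neg_eq_of_add_eq_zero_right hsum]
    refine Submodule.neg_mem _ (Submodule.sum_mem _ fun k hk => Submodule.smul_mem _ _ ?_)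
    exact Submodule.subset_span ⟨k, Finset.mem_range.1 hk, rfl⟩
  obtain ⟨G, hG0, hG⟩ := exists_orth (ι := ι) (υ := υ) n0 (by omega) (pk q B N1 P)
  -- orthogonality to everything
  have horth : ∀ m, trace (pk q B N1 P m * G) = 0 := by
    intro m
    obtain ⟨b, hb, hbm⟩ := stable q B N1 P n0 (v n0) hvn0 hrel m
    have key : ∀ x ∈ Submodule.span ℚ[X] (pk q B N1 P '' {k | k < n0}), trace (x * G) = 0 := by
      intro x hx
      induction hx using Submodule.span_induction with
      | mem x hx => obtain ⟨k, hk, rfl⟩ := hx; exact hG k hk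
      | zero => simp
      | add x y _ _ hx hy => rw [Matrix.add_mul, trace_add, hx, hy, add_zero]
      | smul c x _ hx => rw [Matrix.smul_mul, trace_smul, hx, smul_zero]
    have h1 := key _ hbm
    rw [Matrix.smul_mul, trace_smul, smul_eq_mul] at h1
    exact (mul_eq_zero.1 h1).resolve_left hb
  set F : Matrix ι υ (PowerSeries ℚ) := K * G.map co with hF
  have hHF : H * F = G.map co := by rw [hF, ← Matrix.mul_assoc, hHK, Matrix.one_mul]
  have hF0 : F ≠ 0 := by
    intro h
    rw [h, Matrix.mul_zero] at hHF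
    apply hG0
    ext i j : 1
    have := congrFun (congrFun hHF i) j
    rw [Matrix.map_apply] at this
    exact co_eq_zero.1 this.symm
  set W : Matrix υ ι (PowerSeries ℚ) := P.map co * H with hW
  have htr : ∀ m, trace (aeval (nab N N1) (bet m) W * F) = 0 := by
    intro m
    have h1 : trace ((pk q B N1 P m).map co * H * F) = 0 := by
      rw [Matrix.mul_assoc, hHF]
      have h2 := congrArg co (horth m)
      rw [map_zero] at h2
      rw [← h2]
      simp only [trace, diag_apply, Matrix.mul_apply, Matrix.map_apply, map_sum, map_mul]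
    rw [pk_nab q B N N1 H hH P m, Matrix.smul_mul, trace_smul, smul_eq_mul] at h1
    exact (mul_eq_zero.1 h1).resolve_left (pow_ne_zero _ fun h => hq (co_eq_zero.1 h))
  have hall : ∀ f : ℚ[X], trace (aeval (nab N N1) f W * F) = 0 := by
    intro f
    let S : Submodule ℚ ℚ[X] :=
      { carrier := {f | trace (aeval (nab N N1) f W * F) = 0}
        add_mem' := by
          intro a b ha hb
          simp only [Set.mem_ofPred_eq] at ha hb ⊢
          rw [map_add, LinearMap.add_apply, Matrix.add_mul, trace_add, ha, hb, add_zero]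
        zero_mem' := by simp
        smul_mem' := by
          intro c a ha
          simp only [Set.mem_ofPred_eq] at ha ⊢
          rw [map_smul, LinearMap.smul_apply, Matrix.smul_mul, trace_smul, ha, smul_zero] }
    exact bet_span S htr f
  have hadnil : IsNilpotent (ad N N1) := by
    have e : ad N N1 = (LinearMap.mk (AddHom.mk (fun Z : Matrix υ ι ℚ => Z * N)
        (fun a b => Matrix.add_mul a b N)) (fun c a => Matrix.smul_mul c a N)
        : Module.End ℚ (Matrix υ ι ℚ))
        - (LinearMap.mk (AddHom.mk (fun Z : Matrix υ ι ℚ => N1 * Z)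
        (fun a b => Matrix.mul_add N1 a b)) (fun c a => Matrix.mul_smul N1 c a)
        : Module.End ℚ (Matrix υ ι ℚ)) := by
      ext1 Z; rfl
    rw [e]
    refine Commute.isNilpotent_sub ?_ ?_ ?_
    · ext1 Z
      simp only [Module.End.mul_apply, LinearMap.coe_mk, AddHom.coe_mk]
      rw [Matrix.mul_assoc]
    · obtain ⟨e, he⟩ := hN
      refine ⟨e, ?_⟩
      ext1 Z
      have : ∀ t : ℕ, ((LinearMap.mk (AddHom.mk (fun Z : Matrix υ ι ℚ => Z * N)
        (fun a b => Matrix.add_mul a b N)) (fun c a => Matrix.smul_mul c a N)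
        : Module.End ℚ (Matrix υ ι ℚ)) ^ t) Z = Z * N ^ t := by
        intro t
        induction t with
        | zero => simp
        | succ t ih =>
            rw [pow_succ', Module.End.mul_apply, ih]
            simp only [LinearMap.coe_mk, AddHom.coe_mk]
            rw [Matrix.mul_assoc, ← pow_succ]
      rw [this, he, Matrix.mul_zero, LinearMap.zero_apply]
    · obtain ⟨e, he⟩ := hN1
      refine ⟨e, ?_⟩
      ext1 Z
      have : ∀ t : ℕ, ((LinearMap.mk (AddHom.mk (fun Z : Matrix υ ι ℚ => N1 * Z)
        (fun a b => Matrix.mul_add N1 a b)) (fun c a => Matrix.mul_smul N1 c a)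
        : Module.End ℚ (Matrix υ ι ℚ)) ^ t) Z = N1 ^ t * Z := by
        intro t
        induction t with
        | zero => simp
        | succ t ih =>
            rw [pow_succ', Module.End.mul_apply, ih]
            simp only [LinearMap.coe_mk, AddHom.coe_mk]
            rw [← Matrix.mul_assoc, ← pow_succ']
      rw [this, he, Matrix.zero_mul, LinearMap.zero_apply]
  have hext := extract N N1 hadnil W F hall
  obtain ⟨l, hl⟩ : ∃ l, cf l F ≠ 0 := by
    by_contra h
    push Not at h
    apply hF0
    ext i j t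
    have := congrFun (congrFun (h t) i) j
    rw [cf_apply] at this
    simpa using this
  apply hl
  have hz : ∀ i, ((ad' N N1)^[i] (cf l F)).map C * P = 0 := by
    intro i
    apply free
    have h1 : ((((ad' N N1)^[i] (cf l F)).map C * P).map co)
        = pc ((ad' N N1)^[i] (cf l F)) * P.map co := by
      ext x y : 1
      have hC : ∀ r : ℚ, co (C r) = algebraMap ℚ (PowerSeries ℚ) r := fun r => by
        rw [← Polynomial.algebraMap_eq]; exact co.commutes r
      simp only [Matrix.map_apply, Matrix.mul_apply, map_sum, map_mul, hC]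
    rw [h1, Matrix.mul_assoc, trace_mul_comm, ← hW]
    ext j
    have h2 : PowerSeries.coeff j (trace (W * pc ((ad' N N1)^[i] (cf l F))))
        = trace (cf j (W * pc ((ad' N N1)^[i] (cf l F)))) := by
      simp only [trace, diag_apply, map_sum, cf_apply]
    rw [h2, cf_mul_pc, ← trace_ad, hext, map_zero]
  refine hP _ fun b => ?_
  have hz' : ∀ b i : ℕ, ((ad' N N1)^[i] (cf l F) * N1 ^ b).map C * P = 0 := by
    intro b
    induction b with
    | zero => intro i; simpa using hz i
    | succ b ih =>
        intro i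
        have h1 : (ad' N N1)^[i] (cf l F) * N1 ^ (b + 1)
            = N * ((ad' N N1)^[i] (cf l F) * N1 ^ b) - (ad' N N1)^[i + 1] (cf l F) * N1 ^ b := by
          rw [Function.iterate_succ_apply', ad', Matrix.sub_mul, pow_succ', Matrix.mul_assoc,
            Matrix.mul_assoc]
          abel
        rw [h1]
        have h2 : (N * ((ad' N N1)^[i] (cf l F) * N1 ^ b)
            - (ad' N N1)^[i + 1] (cf l F) * N1 ^ b).map C
            = N.map C * ((ad' N N1)^[i] (cf l F) * N1 ^ b).map C
              - ((ad' N N1)^[i + 1] (cf l F) * N1 ^ b).map C := by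
          ext x y : 1
          simp only [Matrix.map_apply, Matrix.sub_apply, Matrix.mul_apply, map_sub, map_sum,
            map_mul]
        rw [h2, Matrix.sub_mul, Matrix.mul_assoc, ih i, ih (i + 1), Matrix.mul_zero, sub_zero]
  exact hz' b 0

end Pool.Agent.Helper58_MT
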