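import Pool.Agent.Helper58_MT.Ze1
import Pool.Agent.Helper58_MT.Deg

/-! PAPER_MT100, 3.5 (ZE1), second part: the stable hull and the order at `0`. -/

set_option linter.unusedSectionVars false

namespace Pool.Agent.Helper58_MT

open Polynomial Matrix

variable {ι : Type*} [Fintype ι] [DecidableEq ι]

theorem stp_C_mul {υ υ' : Type*} [Fintype υ] [Fintype υ'] (q : ℚ[X]) (B : Matrix ι ι ℚ[X])
    (N : Matrix υ υ ℚ) (N1 : Matrix υ' υ' ℚ) (E : Matrix υ υ' ℚ) (hE : E * N1 = N * E) (k : ℕ)
    (Q : Matrix υ' ι ℚ[X]) : stp q B N k (E.map C * Q) = E.map C * stp q B N1 k Q := by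
  have h1 : (E.map C * Q).map derivative = E.map C * Q.map derivative := by
    ext x y : 1
    simp only [Matrix.map_apply, Matrix.mul_apply, map_sum, derivative_C_mul]
  have h2 : N.map C * (E.map C * Q) = E.map C * (N1.map C * Q) := by
    have h3 : (E * N1).map C = (N * E).map (C : ℚ →+* ℚ[X]) := by rw [hE]
    rw [Matrix.map_mul, Matrix.map_mul] at h3
    rw [← Matrix.mul_assoc, ← Matrix.mul_assoc, h3]
  rw [stp, stp, h1, h2]
  simp only [Matrix.mul_add, Matrix.mul_sub, Matrix.mul_smul, Matrix.mul_assoc]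

theorem pk_C_mul {υ υ' : Type*} [Fintype υ] [Fintype υ'] (q : ℚ[X]) (B : Matrix ι ι ℚ[X])
    (N : Matrix υ υ ℚ) (N1 : Matrix υ' υ' ℚ) (E : Matrix υ υ' ℚ) (hE : E * N1 = N * E)
    (Q : Matrix υ' ι ℚ[X]) (k : ℕ) :
    pk q B N (E.map C * Q) k = E.map C * pk q B N1 Q k := by
  symm
  refine pk_unique q B N (E.map C * Q) (fun k => E.map C * pk q B N1 Q k) (by simp [pk])
    (fun k => ?_) k
  rw [stp_C_mul q B N N1 E hE, ← pk_succ, Matrix.mul_smul]

/-- the stable hull of the columns of the coefficients of `P` -/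
def hull (N : Matrix ι ι ℚ) (P : Matrix ι ι ℚ[X]) : Submodule ℚ (ι → ℚ) :=
  Submodule.span ℚ (Set.range fun t : ℕ × ℕ × ι => (N ^ t.1) *ᵥ fun x => (P x t.2.2).coeff t.2.1)

theorem hull_stable (N : Matrix ι ι ℚ) (P : Matrix ι ι ℚ[X]) (u : ι → ℚ) (hu : u ∈ hull N P) :
    N *ᵥ u ∈ hull N P := by
  unfold hull at hu
  induction hu using Submodule.span_induction with
  | mem x hx =>
      obtain ⟨⟨b, j, y⟩, rfl⟩ := hx
      refine Submodule.subset_span ⟨(b + 1, j, y), ?_⟩
      simp only
      rw [Matrix.mulVec_mulVec, ← pow_succ']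
  | zero => rw [Matrix.mulVec_zero]; exact (hull N P).zero_mem
  | add x y _ _ hx hy => rw [Matrix.mulVec_add]; exact (hull N P).add_mem hx hy
  | smul c x _ hx => rw [Matrix.mulVec_smul]; exact (hull N P).smul_mem _ hx

/-- factorisation through the hull -/
theorem hull_factor (N : Matrix ι ι ℚ) (P : Matrix ι ι ℚ[X]) :
    ∃ (s : ℕ) (E : Matrix ι (Fin s) ℚ) (L : Matrix (Fin s) ι ℚ) (N1 : Matrix (Fin s) (Fin s) ℚ),
      L * E = 1 ∧ E * N1 = N * E ∧ E.map C * (L.map C * P) = P ∧
      ∀ X : Matrix ι (Fin s) ℚ, (∀ b : ℕ, (X * N1 ^ b).map C * (L.map C * P) = 0) → X = 0 := by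
  classical
  set U := hull N P with hU
  set b := Module.finBasis ℚ U with hb
  obtain ⟨g, hg⟩ := LinearMap.exists_leftInverse_of_injective U.subtype
    (LinearMap.ker_eq_bot.2 U.injective_subtype)
  set el : (Fin (Module.finrank ℚ U) → ℚ) →ₗ[ℚ] (ι → ℚ) :=
    U.subtype ∘ₗ b.equivFun.symm.toLinearMap with hel
  set ll : (ι → ℚ) →ₗ[ℚ] (Fin (Module.finrank ℚ U) → ℚ) := b.equivFun.toLinearMap ∘ₗ g with hll
  set E := LinearMap.toMatrix' el with hE
  set L := LinearMap.toMatrix' ll with hL
  have hEv : ∀ w, E *ᵥ w = el w := fun w => LinearMap.toMatrix'_mulVec el w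
  have hLv : ∀ w, L *ᵥ w = ll w := fun w => LinearMap.toMatrix'_mulVec ll w
  have hEU : ∀ w, E *ᵥ w ∈ U := fun w => by rw [hEv, hel]; exact (b.equivFun.symm w).2
  have hgu : ∀ u : U, g u = u := fun u => congrFun (congrArg DFunLike.coe hg) u
  have hELu : ∀ u ∈ U, E *ᵥ (L *ᵥ u) = u := by
    intro u hu
    rw [hLv, hEv, hel, hll]
    simp only [LinearMap.coe_comp, Function.comp_apply, LinearEquiv.coe_coe,
      LinearEquiv.symm_apply_apply]
    have := hgu ⟨u, hu⟩
    simp only at this
    rw [this]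
    rfl
  have hLE : L * E = 1 := by
    refine Matrix.ext_of_mulVec_single fun i => ?_
    rw [← Matrix.mulVec_mulVec, Matrix.one_mulVec, hEv, hLv, hel, hll]
    simp only [LinearMap.coe_comp, Function.comp_apply, LinearEquiv.coe_coe,
      Submodule.coe_subtype]
    rw [hgu, LinearEquiv.apply_symm_apply]
  have hEN : E * (L * N * E) = N * E := by
    refine Matrix.ext_of_mulVec_single fun i => ?_
    rw [Matrix.mul_assoc L, ← Matrix.mulVec_mulVec, ← Matrix.mulVec_mulVec]
    refine hELu _ ?_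
    rw [← Matrix.mulVec_mulVec]
    exact hull_stable N P _ (hEU _)
  have hcol : ∀ j y, (fun x => (P x y).coeff j) ∈ U := fun j y =>
    Submodule.subset_span ⟨(0, j, y), by simp⟩
  have hcoef : ∀ {κ : Type _} (A : Matrix κ ι ℚ) (x : κ) (y : ι) (j : ℕ),
      ((A.map C * P) x y).coeff j = (A *ᵥ fun z => (P z y).coeff j) x := by
    intro κ A x y j
    simp only [Matrix.mul_apply, Matrix.map_apply, finsetSum_coeff, coeff_C_mul, Matrix.mulVec,
      dotProduct]
  refine ⟨_, E, L, L * N * E, hLE, hEN, ?_, ?_⟩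
  · rw [← Matrix.mul_assoc, ← Matrix.map_mul]
    ext x y j
    rw [hcoef, ← Matrix.mulVec_mulVec, hELu _ (hcol j y)]
  · intro X hX
    have hpow : ∀ b : ℕ, E * (L * N * E) ^ b = N ^ b * E := by
      intro b
      induction b with
      | zero => simp
      | succ b ih => rw [pow_succ, ← Matrix.mul_assoc, ih, Matrix.mul_assoc, hEN, pow_succ,
          Matrix.mul_assoc]
    have hXU : ∀ u ∈ U, (X * L) *ᵥ u = 0 := by
      intro u hu
      rw [hU] at hu
      unfold hull at hu
      induction hu using Submodule.span_induction with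
      | mem x hx =>
          obtain ⟨⟨b, j, y⟩, rfl⟩ := hx
          simp only
          have h1 : (fun x => (P x y).coeff j) = E *ᵥ (L *ᵥ fun x => (P x y).coeff j) :=
            (hELu _ (hcol j y)).symm
          have h2 : (X * L) *ᵥ (N ^ b *ᵥ (fun x => (P x y).coeff j))
              = (X * (L * N * E) ^ b * L) *ᵥ fun x => (P x y).coeff j := by
            conv_lhs => rw [h1]
            rw [Matrix.mulVec_mulVec, Matrix.mulVec_mulVec, Matrix.mulVec_mulVec]
            congr 1
            rw [Matrix.mul_assoc (X * L), ← hpow, Matrix.mul_assoc X, ← Matrix.mul_assoc L,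
              hLE, Matrix.one_mul, Matrix.mul_assoc]
          rw [h2]
          funext x
          rw [← hcoef, Matrix.map_mul, Matrix.mul_assoc, hX b]
          simp
      | zero => rw [Matrix.mulVec_zero]
      | add x y _ _ hx hy => rw [Matrix.mulVec_add, hx, hy, add_zero]
      | smul c x _ hx => rw [Matrix.mulVec_smul, hx, smul_zero]
    have hXE : X = X * L * E := by rw [Matrix.mul_assoc, hLE, Matrix.mul_one]
    refine Matrix.ext_of_mulVec_single fun i => ?_
    rw [Matrix.zero_mulVec]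
    conv_lhs => rw [hXE]
    rw [← Matrix.mulVec_mulVec]
    exact hXU _ (hEU _)

/-- ZE1: the first zero estimate -/
theorem ze1 (q : ℚ[X]) (hq : q ≠ 0) (B : Matrix ι ι ℚ[X]) (N : Matrix ι ι ℚ)
    (hN : IsNilpotent N) (H K : Matrix ι ι (PowerSeries ℚ)) (hHK : H * K = 1)
    (h1 : ∀ i j, PowerSeries.constantCoeff (H i j) = if i = j then 1 else 0)
    (hH : co (X * q) • H.map (PowerSeries.derivative ℚ) = B.map co * H - co q • (H * pc N))
    (free : ∀ p : Matrix ι ι ℚ[X], trace (p.map co * H) = 0 → p = 0)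
    (c M : ℕ) (hc : (X * q).natDegree ≤ c) (hB : ∀ i j, (B i j).natDegree ≤ c)
    (P : Matrix ι ι ℚ[X]) (hM : ∀ i j, (P i j).natDegree ≤ M) (hP0 : P ≠ 0) (T : ℕ)
    (hT : PowerSeries.X ^ T ∣ trace (P.map co * H))
    (hbig : Fintype.card ι * (Fintype.card ι - 1) * M + c * Fintype.card ι ^ 4 < T)
    (n : ℕ) (hn : n ≤ Fintype.card ι * Fintype.card ι) (v : ℕ → ℚ[X])
    (hv : ∑ k ∈ Finset.range n, v k • pk q B N P k = 0) : ∀ k < n, v k = 0 := by
  classical
  obtain ⟨s, E, L, N1, hLE, hEN, hEL, hX⟩ := hull_factor N P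
  set Q := L.map C * P with hQ
  have hN1 : IsNilpotent N1 := by
    obtain ⟨e, he⟩ := hN
    refine ⟨e, ?_⟩
    have hpow : ∀ b : ℕ, E * N1 ^ b = N ^ b * E := by
      intro b
      induction b with
      | zero => simp
      | succ b ih => rw [pow_succ, ← Matrix.mul_assoc, ih, Matrix.mul_assoc, hEN, pow_succ,
          Matrix.mul_assoc]
    have h2 : L * (E * N1 ^ e) = 0 := by rw [hpow, he, Matrix.zero_mul, Matrix.mul_zero]
    rwa [← Matrix.mul_assoc, hLE, Matrix.one_mul] at h2
  have hind := ze1a q hq B N hN N1 hN1 H K hHK hH free Q hX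
  have hQM : ∀ i j, (Q i j).natDegree ≤ M := by
    intro i j
    rw [hQ, Matrix.mul_apply]
    refine natDegree_sum_le_of_forall_le _ _ fun x _ => ?_
    rw [Matrix.map_apply]
    exact (natDegree_C_mul_le _ _).trans (hM x j)
  -- the determinant
  have hcard : Fintype.card (Fin s × ι) = s * Fintype.card ι := by
    rw [Fintype.card_prod, Fintype.card_fin]
  set e : Fin (s * Fintype.card ι) ≃ Fin s × ι :=
    (Fintype.equivFinOfCardEq hcard).symm with he
  have hdet : (bp e q B N1 Q).det ≠ 0 :=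
    bp_det_ne_zero e q B N1 Q (hind _ (by rw [hcard]))
  -- some entry of E is nonzero
  obtain ⟨i, j, hij⟩ : ∃ i j, E i j ≠ 0 := by
    by_contra hcon
    push Not at hcon
    apply hP0
    have : E = 0 := by ext i j; exact hcon i j
    rw [← hEL, this]
    ext x y : 1
    simp [Matrix.mul_apply]
  have hpcN : pc N * pc E = pc E * pc N1 := by
    rw [← Matrix.map_mul, ← Matrix.map_mul, hEN]
  have hHE : co (X * q) • (H * pc E).map (PowerSeries.derivative ℚ)
      = B.map co * (H * pc E) - co q • (H * pc E * pc N1) := by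
    have h2 : (H * pc E).map (PowerSeries.derivative ℚ)
        = H.map (PowerSeries.derivative ℚ) * pc E := by
      ext x y : 1
      simp only [Matrix.map_apply, Matrix.mul_apply, map_sum, Derivation.leibniz, smul_eq_mul,
        Derivation.map_algebraMap, mul_zero, zero_add]
      refine Finset.sum_congr rfl fun z _ => ?_
      ring
    rw [h2, ← Matrix.smul_mul, hH, Matrix.sub_mul, Matrix.smul_mul, Matrix.mul_assoc,
      Matrix.mul_assoc H, hpcN, Matrix.mul_assoc]
  have hTE : PowerSeries.X ^ T ∣ trace (Q.map co * (H * pc E)) := by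
    have h2 : trace (Q.map co * (H * pc E)) = trace (P.map co * H) := by
      rw [← Matrix.mul_assoc, trace_mul_comm, ← Matrix.mul_assoc]
      congr 2
      rw [← hEL]
      ext x y : 1
      have hC : ∀ r : ℚ, co (C r) = algebraMap ℚ (PowerSeries ℚ) r := fun r => by
        rw [← Polynomial.algebraMap_eq]; exact co.commutes r
      simp only [Matrix.map_apply, Matrix.mul_apply, map_sum, map_mul, hC]
    rw [h2]
    exact hT
  have hconst : PowerSeries.constantCoeff ((H * pc E) i j) = E i j := by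
    rw [Matrix.mul_apply, map_sum, Finset.sum_eq_single i]
    · rw [map_mul, h1, if_pos rfl, one_mul]
      change PowerSeries.constantCoeff (algebraMap ℚ (PowerSeries ℚ) (E i j)) = E i j
      rw [← PowerSeries.C_eq_algebraMap, PowerSeries.constantCoeff_C]
    · intro x _ hx
      rw [map_mul, h1, if_neg (Ne.symm hx), zero_mul]
    · intro h; exact absurd (Finset.mem_univ _) h
  have hXd : X ^ T ∣ (bp e q B N1 Q).det :=
    bp_order e q B N1 Q (H * pc E) hHE T hTE i j (by rw [hconst]; exact hij)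
  have hdeg := (natDegree_le_of_dvd hXd hdet).trans
    (bp_natDegree e q B N1 Q c M hc hB hQM)
  rw [natDegree_X_pow] at hdeg
  -- s = card
  have hs1 : Fintype.card ι ≤ s := by
    by_contra hlt
    push Not at hlt
    have h3 : s * Fintype.card ι ≤ Fintype.card ι * (Fintype.card ι - 1) := by
      rw [mul_comm]
      exact Nat.mul_le_mul_left _ (by omega)
    have h4 : s * Fintype.card ι ≤ Fintype.card ι * Fintype.card ι :=
      Nat.mul_le_mul_right _ hlt.le
    have h5 : s * Fintype.card ι * M ≤ Fintype.card ι * (Fintype.card ι - 1) * M :=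
      Nat.mul_le_mul_right _ h3
    have h6 : c * (s * Fintype.card ι) ^ 2 ≤ c * Fintype.card ι ^ 4 := by
      refine Nat.mul_le_mul_left _ ?_
      calc (s * Fintype.card ι) ^ 2 ≤ (Fintype.card ι * Fintype.card ι) ^ 2 :=
            Nat.pow_le_pow_left h4 2
        _ = Fintype.card ι ^ 4 := by ring
    omega
  intro k hk
  refine hind n (by rw [hcard]; exact hn.trans (Nat.mul_le_mul_right _ hs1)) v ?_ k hk
  have h2 : ∀ k, pk q B N P k = E.map C * pk q B N1 Q k := by
    intro k
    have h3 := pk_C_mul q B N N1 E hEN Q k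
    rwa [hEL] at h3
  have h3 : E.map C * ∑ k ∈ Finset.range n, v k • pk q B N1 Q k = 0 := by
    rw [Matrix.mul_sum, ← hv]
    refine Finset.sum_congr rfl fun k _ => ?_
    rw [Matrix.mul_smul, h2]
  have h4 : L.map C * (E.map C * ∑ k ∈ Finset.range n, v k • pk q B N1 Q k) = 0 := by
    rw [h3, Matrix.mul_zero]
  rw [← Matrix.mul_assoc, ← Matrix.map_mul, hLE] at h4
  have h5 : (1 : Matrix (Fin s) (Fin s) ℚ).map (C : ℚ →+* ℚ[X]) = 1 := by
    ext x y : 1
    simp [Matrix.one_apply, apply_ite C]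
  rwa [h5, Matrix.one_mul] at h4

end Pool.Agent.Helper58_MT
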